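import Mathlib
import Pool.Agent.H27.CMeas

namespace Pool.Agent.Results.MP_831e37_an.Vague

open MeasureTheory Filter Finset Pool.Agent.H27.CMeas
open scoped FourierTransform RealInnerProductSpace Topology SchwartzMap Convolution

variable {V : Type} [NormedAddCommGroup V] [InnerProductSpace ℝ V] [FiniteDimensional ℝ V]
  [MeasurableSpace V] [BorelSpace V]

/-- `K_2`: the span of convolutions of two compactly supported continuous functions -/
def K2 (V : Type) [NormedAddCommGroup V] [InnerProductSpace ℝ V] [FiniteDimensional ℝ V]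
    [MeasurableSpace V] [BorelSpace V] : Submodule ℂ (V → ℂ) :=
  Submodule.span ℂ {g | ∃ f h : V → ℂ, Cc f ∧ Cc h ∧ g = fun x => ∫ t, f t * h (x - t)}

/-- `ν` is the Fourier transform of `μ` -/
def IsFT (μ ν : CMeas V) : Prop :=
  ∀ g ∈ K2 V, Integrable (𝓕⁻ g) ν.tv ∧ μ.app g = ν.app (𝓕⁻ g)

def Vague (μ : ℕ → CMeas V) (L : (V → ℂ) → ℂ) : Prop :=
  ∀ g, Cc g → Tendsto (fun n => (μ n).app g) atTop (𝓝 (L g))

lemma K2_int {g : V → ℂ} (hg : g ∈ K2 V) : Integrable g := by
  induction hg using Submodule.span_induction with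
  | mem g hg =>
    obtain ⟨f, h, hf, hh, rfl⟩ := hg
    exact (hf.1.integrable_of_hasCompactSupport hf.2).integrable_convolution
      (ContinuousLinearMap.mul ℂ ℂ) (hh.1.integrable_of_hasCompactSupport hh.2)
  | zero => exact integrable_zero _ _ _
  | add _ _ _ _ a b => exact a.add b
  | smul c _ _ a => exact a.smul c

lemma isFT_comb (φ : 𝓢(V, ℂ)) (v : V) (p : Polynomial ℂ) :
    IsFT (ofDens _ (comb_cont φ v p)) (ofDens _ (fourier_comb_cont φ v p)) := by
  intro g hg
  have hi := K2_int hg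
  haveI := finite_ofDens _ (fourier_comb_cont φ v p) (fourier_comb_int φ v p)
  refine ⟨Integrable.of_bound (cont_inv g hi).aestronglyMeasurable _
    (Eventually.of_forall (norm_inv_le g)), ?_⟩
  rw [app_ofDens, app_ofDens]
  exact dual _ (comb_cont φ v p) (comb_int φ v p) (fourier_comb_int φ v p) g hi

/-- polynomial divisible by `X^M` and close to `1` near `1` -/
lemma exists_poly (M : ℕ) (η : ℝ) (hη : 0 < η) : ∃ p : Polynomial ℂ,
    (∀ j ∈ p.support, M ≤ j) ∧ ∀ w : ℂ, ‖1 - w‖ ≤ 1 / 2 → ‖p.eval w - 1‖ ≤ η := by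
  have hc : ContinuousAt (fun u : ℂ => (1 - u) ^ M) 0 := by fun_prop
  obtain ⟨δ, hδ, h⟩ := Metric.continuousAt_iff.1 hc η hη
  obtain ⟨m, hm⟩ := exists_pow_lt_of_lt_one hδ (by norm_num : (1 / 2 : ℝ) < 1)
  refine ⟨(1 - (1 - Polynomial.X) ^ (m + 1)) ^ M, fun j hj => ?_, fun w hw => ?_⟩
  · have : (Polynomial.X : Polynomial ℂ) ^ M ∣ (1 - (1 - Polynomial.X) ^ (m + 1)) ^ M :=
      pow_dvd_pow_of_dvd (Polynomial.X_dvd_iff.2 (by simp [Polynomial.coeff_zero_eq_eval_zero])) M
    by_contra hlt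
    exact Polynomial.mem_support_iff.1 hj (Polynomial.X_pow_dvd_iff.1 this j (not_le.1 hlt))
  · have h1 : dist ((1 - w) ^ (m + 1)) 0 < δ := by
      rw [dist_zero_right, norm_pow]
      calc ‖1 - w‖ ^ (m + 1) ≤ (1 / 2) ^ (m + 1) := by gcongr
        _ ≤ (1 / 2) ^ m := pow_le_pow_of_le_one (by norm_num) (by norm_num) (by omega)
        _ < δ := hm
    have := h h1
    rw [dist_eq_norm] at this
    simpa using this.le

lemma z_close (v y : V) (h : ‖y‖ * ‖v‖ ≤ 1 / 16) : ‖1 - z v y‖ ≤ 1 / 2 := by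
  unfold z
  rw [norm_sub_rev]
  have := Real.norm_exp_I_mul_ofReal_sub_one_le (x := -2 * Real.pi * ⟪y, v⟫)
  push_cast at this
  rw [mul_comm Complex.I] at this
  refine this.trans ?_
  have h1 := abs_real_inner_le_norm y v
  rw [Real.norm_eq_abs, abs_mul, abs_mul, abs_neg, abs_two, abs_of_pos Real.pi_pos]
  have := Real.pi_le_four
  have := Real.pi_pos
  nlinarith [abs_nonneg ⟪y, v⟫]

theorem main [Nontrivial V] : ∃ (ν νh : ℕ → CMeas V) (μ : CMeas V),
    (∀ n, IsFT (ν n) (νh n)) ∧ (∃ g, Cc g ∧ μ.app g ≠ 0) ∧ Vague ν (fun _ => 0) ∧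
      Vague νh μ.app := by
  obtain ⟨φ, hφ, y0, hy0⟩ := exists_bump (V := V)
  obtain ⟨e, he⟩ := exists_norm_eq V (zero_le_one)
  choose p hp1 hp2 using fun n : ℕ => exists_poly (16 * (n + 1) ^ 2) (1 / ((n : ℝ) + 1))
    (by positivity)
  set v : ℕ → V := fun n => (1 / (16 * ((n : ℝ) + 1))) • e with hv
  have nv : ∀ n, ‖v n‖ = 1 / (16 * ((n : ℝ) + 1)) := fun n => by
    rw [hv]; simp only; rw [norm_smul, he, mul_one, Real.norm_of_nonneg (by positivity)]
  have cF : Continuous (𝓕 (φ : V → ℂ)) := (𝓕 φ).continuous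
  have iF : Integrable (𝓕 (φ : V → ℂ)) := (𝓕 φ).integrable
  refine ⟨fun n => ofDens _ (comb_cont φ (v n) (p n)),
    fun n => ofDens _ (fourier_comb_cont φ (v n) (p n)), ofDens _ cF,
    fun n => isFT_comb φ _ _, ?_, ?_, ?_⟩
  · let b : ContDiffBump y0 := ⟨1, 2, by norm_num, by norm_num⟩
    refine ⟨fun y => (b y : ℂ) * (starRingEnd ℂ) (𝓕 (φ : V → ℂ) y), ⟨?_, ?_⟩, ?_⟩
    · have := b.continuous
      fun_prop
    · exact (b.hasCompactSupport.comp_left (g := fun r : ℝ => (r : ℂ)) (by simp)).mul_right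
    · rw [app_ofDens]
      have e : ∀ y, (b y : ℂ) * (starRingEnd ℂ) (𝓕 (φ : V → ℂ) y) * 𝓕 (φ : V → ℂ) y =
          ((b y * ‖𝓕 (φ : V → ℂ) y‖ ^ 2 : ℝ) : ℂ) := fun y => by
        rw [mul_assoc, Complex.conj_mul']; push_cast; ring
      simp only [e]
      rw [integral_complex_ofReal, Complex.ofReal_ne_zero]
      apply ne_of_gt
      have hb := b.continuous
      refine Continuous.integral_pos_of_hasCompactSupport_nonneg_nonzero (x := y0) (by fun_prop)
        b.hasCompactSupport.mul_right (fun y => mul_nonneg (b.nonneg' y) (by positivity)) ?_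
      rw [b.one_of_mem_closedBall (by simp [b])]
      simpa using hy0
  · intro g hg
    obtain ⟨R, hR⟩ := hg.2.isBounded.exists_norm_le
    refine tendsto_const_nhds.congr' ?_
    filter_upwards [eventually_ge_atTop ⌈R⌉₊] with n hn
    rw [app_ofDens]
    symm
    have : ∀ x, g x * comb φ (v n) (p n) x = 0 := by
      intro x
      by_cases hx : x ∈ tsupport g
      · apply mul_eq_zero_of_right
        apply sum_eq_zero
        intro j hj
        apply mul_eq_zero_of_right
        apply hφ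
        have h1 : ((16 * (n + 1) ^ 2 : ℕ) : ℝ) ≤ j := by exact_mod_cast hp1 n j hj
        push_cast at h1
        have h2 : (n : ℝ) + 1 ≤ ‖(j : ℝ) • v n‖ := by
          rw [norm_smul, nv, Real.norm_of_nonneg (by positivity), mul_one_div,
            le_div_iff₀ (by positivity)]
          nlinarith
        have h3 := hR x hx
        have h4 : R ≤ n := (Nat.le_ceil R).trans (by exact_mod_cast hn)
        have := norm_sub_norm_le ((j : ℝ) • v n) x
        rw [norm_sub_rev] at this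
        linarith
      · rw [image_eq_zero_of_notMem_tsupport hx, zero_mul]
    simp [this]
  · intro g hg
    obtain ⟨R, hR⟩ := hg.2.isBounded.exists_norm_le
    have ig : Integrable fun y => g y * 𝓕 (φ : V → ℂ) y :=
      (hg.1.mul cF).integrable_of_hasCompactSupport hg.2.mul_right
    rw [tendsto_iff_norm_sub_tendsto_zero]
    have lim : Tendsto (fun n : ℕ => 1 / ((n : ℝ) + 1) * ∫ y, ‖g y * 𝓕 (φ : V → ℂ) y‖) atTop
        (𝓝 0) := by
      simpa using tendsto_one_div_add_atTop_nhds_zero_nat.mul_const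
        (∫ y, ‖g y * 𝓕 (φ : V → ℂ) y‖)
    refine squeeze_zero' (Eventually.of_forall fun n => norm_nonneg _) ?_ lim
    filter_upwards [eventually_ge_atTop ⌈R⌉₊] with n hn
    have ig2 : Integrable fun y => g y * 𝓕 (comb φ (v n) (p n)) y :=
      (hg.1.mul (fourier_comb_cont φ _ _)).integrable_of_hasCompactSupport hg.2.mul_right
    rw [app_ofDens, app_ofDens, ← integral_sub ig2 ig, ← integral_const_mul]
    refine norm_integral_le_of_norm_le (ig.norm.const_mul _) (Eventually.of_forall fun y => ?_)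
    by_cases hy : y ∈ tsupport g
    · rw [fourier_comb]
      have h4 : R ≤ n := (Nat.le_ceil R).trans (by exact_mod_cast hn)
      have h5 := hp2 n _ (z_close (v n) y (by
        rw [nv, mul_one_div, div_le_div_iff₀ (by positivity) (by norm_num)]
        linarith [hR y hy]))
      have : g y * (Polynomial.eval (z (v n) y) (p n) * 𝓕 (φ : V → ℂ) y) - g y * 𝓕 (φ : V → ℂ) y
          = (Polynomial.eval (z (v n) y) (p n) - 1) * (g y * 𝓕 (φ : V → ℂ) y) := by ring
      rw [this, norm_mul]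
      gcongr
    · simp [image_eq_zero_of_notMem_tsupport hy]

theorem result (d : ℕ) (hd : 1 ≤ d) :
    ∃ (ν νh : ℕ → CMeas (EuclideanSpace ℝ (Fin d))) (μ : CMeas (EuclideanSpace ℝ (Fin d))),
      (∀ n, IsFT (ν n) (νh n)) ∧ (∃ g, Cc g ∧ μ.app g ≠ 0) ∧ Vague ν (fun _ => 0) ∧
        Vague νh μ.app := by
  haveI : Nonempty (Fin d) := ⟨⟨0, hd⟩⟩
  exact main

end Pool.Agent.Results.MP_831e37_an.Vague
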